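import Pool.Agent.Q61.MP6d

set_option autoImplicit false

open MeasureTheory Filter Q61.MP6d

namespace Pool.Agent.Results.MP_6d9676_an.VolumeTendsToInfinity

/-- For every `a` there is exactly one entire radial solution `u_a` of `Δ² u = -6 e^{4u}` on `ℝ⁴` with
`u(0) = 0`, `u''(0) = a`; its volume `V(a)` is finite; and `V(a) → ∞` as `a → +∞`. -/
theorem result :
    (∀ a : ℝ, ∃! u : EuclideanSpace ℝ (Fin 4) → ℝ, IsSolQ a u) ∧
    (∀ (a : ℝ) (u : EuclideanSpace ℝ (Fin 4) → ℝ), IsSolQ a u → Integrable fun x => Real.exp (4 * u x)) ∧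
    ∀ U : ℝ → EuclideanSpace ℝ (Fin 4) → ℝ, (∀ a, IsSolQ a (U a)) →
      Tendsto (fun a => ∫ x, Real.exp (4 * U a x)) atTop atTop :=
  ⟨existsUnique, fun _ _ h => (mass_data h).1, fun _ hU => Q61.MP6d.tendsto hU⟩

end Pool.Agent.Results.MP_6d9676_an.VolumeTendsToInfinity
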